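import Pool.Agent.TH198.AT.Stmts

/-!
# Leibniz rule (right derivative)
-/

set_option autoImplicit false

open MeasureTheory ProbabilityTheory Set Filter Topology

namespace Pool.TH862.AT

open Pool.TH198.AT

/-- Lipschitz bound from a bound of the derivative in the interior -/
theorem lip_of {f f' : ℝ → ℝ} {W M : ℝ} (hc : ContinuousOn f (Icc 0 W))
    (hd : ∀ w ∈ Ioo 0 W, HasDerivAt f (f' w) w) (hM : ∀ w ∈ Icc 0 W, |f' w| ≤ M) {x y : ℝ}
    (hx : x ∈ Icc 0 W) (hy : y ∈ Icc 0 W) : |f x - f y| ≤ M * |x - y| := by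
  wlog hxy : y ≤ x generalizing x y
  · rw [abs_sub_comm, abs_sub_comm x y]
    exact this hy hx (le_of_not_ge hxy)
  rcases eq_or_lt_of_le hxy with h | h
  · rw [h]
    simp
  · obtain ⟨c, hc1, hc2⟩ := exists_hasDerivAt_eq_slope f f' h
      (hc.mono (Icc_subset_Icc hy.1 hx.2))
      (fun w hw => hd w ⟨lt_of_le_of_lt hy.1 hw.1, lt_of_lt_of_le hw.2 hx.2⟩)
    have h1 : 0 < x - y := sub_pos.2 h
    rw [eq_div_iff h1.ne'] at hc2
    rw [← hc2, abs_mul]
    exact mul_le_mul_of_nonneg_right (hM c ⟨le_trans hy.1 hc1.1.le, le_trans hc1.2.le hx.2⟩)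
      (abs_nonneg _)

theorem t_LEIB : St_LEIB := by
  intro a t T C ρ k kw ha htT hρm hρb hρc hd hk hkw
  -- the composition with the curve
  have hcurve : ∀ τ : ℝ, ContinuousOn (fun r => (r, a * max (r - τ) 0)) (Icc t T) := fun τ => by
    fun_prop
  have hmaps : ∀ τ : ℝ, MapsTo (fun r => (r, a * max (r - τ) 0)) (Icc t T) (Icc t T ×ˢ Ici 0) :=
    fun τ r hr => ⟨hr, mul_nonneg ha.le (le_max_right _ _)⟩
  have hkc : ∀ τ : ℝ, ContinuousOn (fun r => k r (a * max (r - τ) 0)) (Icc t T) := fun τ =>
    hk.comp (hcurve τ) (hmaps τ)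
  have hkwc : ContinuousOn (fun r => kw r (a * max (r - t) 0)) (Icc t T) :=
    hkw.comp (hcurve t) (hmaps t)
  have hk0 : ContinuousOn (fun r => k r 0) (Icc t T) :=
    hk.comp (f := fun r => (r, (0 : ℝ))) (by fun_prop) (fun r hr => ⟨hr, mem_Ici.2 (le_refl _)⟩)
  have hIoc : ∀ {u v : ℝ}, t ≤ u → u ≤ v → v ≤ T → uIoc u v ⊆ Icc t T := by
    intro u v hu huv hv x hx
    rw [uIoc_of_le huv] at hx
    exact ⟨hu.trans hx.1.le, hx.2.trans hv⟩
  have hC : 0 ≤ C := (abs_nonneg _).trans (hρb t ⟨le_refl _, htT.le⟩)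
  -- integrability of `ρ` times a continuous function
  have hint : ∀ {g : ℝ → ℝ} {u v : ℝ}, ContinuousOn g (Icc t T) → t ≤ u → u ≤ v → v ≤ T →
      IntervalIntegrable (fun r => ρ r * g r) volume u v := by
    intro g u v hg hu huv hv
    rw [intervalIntegrable_iff]
    have h1 : IntegrableOn g (uIoc u v) volume :=
      (hg.integrableOn_Icc).mono_set (hIoc hu huv hv)
    refine Integrable.bdd_mul (c := C) h1 hρm.aestronglyMeasurable ?_
    refine (ae_restrict_iff' measurableSet_uIoc).2 (Eventually.of_forall fun r hr => ?_)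
    exact hρb r (hIoc hu huv hv hr)
  have hmeas : ∀ {g : ℝ → ℝ}, ContinuousOn g (Icc t T) →
      AEStronglyMeasurable (fun r => ρ r * g r) (volume.restrict (uIoc t T)) := by
    intro g hg
    have h1 := hint hg (le_refl t) htT.le (le_refl T)
    rw [intervalIntegrable_iff] at h1
    exact h1.aestronglyMeasurable
  -- a bound for the derivative
  set W : ℝ := a * (T - t + 1) with hW
  have hWpos : 0 ≤ W := mul_nonneg ha.le (by linarith)
  obtain ⟨M, hM⟩ : ∃ M : ℝ, ∀ p ∈ Icc t T ×ˢ Icc 0 W, |kw p.1 p.2| ≤ M := by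
    have h1 : IsCompact (Icc t T ×ˢ Icc 0 W) := isCompact_Icc.prod isCompact_Icc
    have h2 : ContinuousOn (fun p : ℝ × ℝ => kw p.1 p.2) (Icc t T ×ˢ Icc 0 W) :=
      hkw.mono (prod_mono_right Icc_subset_Ici_self)
    obtain ⟨M, hM⟩ := h1.exists_bound_of_continuousOn h2
    exact ⟨M, fun p hp => hM p hp⟩
  have hM0 : 0 ≤ M := (abs_nonneg _).trans (hM (t, 0) ⟨⟨le_refl _, htT.le⟩, ⟨le_refl _, hWpos⟩⟩)
  have hlip : ∀ r ∈ Icc t T, ∀ x ∈ Icc 0 W, ∀ y ∈ Icc 0 W, |k r x - k r y| ≤ M * |x - y| := by
    intro r hr x hx y hy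
    refine lip_of (f' := kw r) (W := W) ?_ (fun w hw => hd r hr w hw.1)
      (fun w hw => hM (r, w) ⟨hr, hw⟩) hx hy
    exact hk.comp (f := fun w => (r, w)) (by fun_prop) (fun w hw => ⟨hr, hw.1⟩)
  -- the part `A`
  have hA : HasDerivAt (fun τ => ∫ r in t..T, ρ r * k r (a * max (r - τ) 0))
      (∫ r in t..T, ρ r * -(a * kw r (a * (r - t)))) t := by
    have h0 : HasDerivAt (fun τ => ∫ r in t..T, ρ r * k r (a * max (r - τ) 0))
        (∫ r in t..T, ρ r * -(a * kw r (a * max (r - t) 0))) t := by
      refine (intervalIntegral.hasDerivAt_integral_of_dominated_loc_of_lip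
        (F := fun τ r => ρ r * k r (a * max (r - τ) 0))
        (F' := fun r => ρ r * -(a * kw r (a * max (r - t) 0)))
        (bound := fun _ => C * (M * a)) (s := Icc (t - 1) (t + 1))
        (Icc_mem_nhds (by linarith) (by linarith)) ?_ ?_ ?_ ?_ ?_ ?_).2
      · exact Eventually.of_forall fun τ => hmeas (hkc τ)
      · exact hint (hkc t) (le_refl t) htT.le (le_refl T)
      · exact hmeas ((hkwc.const_mul a).neg)
      · refine Eventually.of_forall fun r hr => ?_
        have hr' : r ∈ Icc t T := hIoc (le_refl t) htT.le (le_refl T) hr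
        rw [lipschitzOnWith_iff_dist_le_mul]
        intro x hx y hy
        have hmem : ∀ z ∈ Icc (t - 1) (t + 1), a * max (r - z) 0 ∈ Icc 0 W := by
          intro z hz
          refine ⟨mul_nonneg ha.le (le_max_right _ _), ?_⟩
          rw [hW]
          refine mul_le_mul_of_nonneg_left (max_le ?_ ?_) ha.le
          · linarith [hz.1, hr'.2]
          · linarith
        have h1 := hlip r hr' _ (hmem x hx) _ (hmem y hy)
        have h2 : |a * max (r - x) 0 - a * max (r - y) 0| ≤ a * |x - y| := by
          rw [← mul_sub, abs_mul, abs_of_pos ha]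
          refine mul_le_mul_of_nonneg_left ?_ ha.le
          have h3 := abs_max_sub_max_le_abs (r - x) (r - y) 0
          have h4 : r - x - (r - y) = -(x - y) := by ring
          rwa [h4, abs_neg] at h3
        have h5 : ((Real.nnabs (C * (M * a)) : NNReal) : ℝ) = C * (M * a) := by
          rw [Real.coe_nnabs, abs_of_nonneg]
          positivity
        rw [Real.dist_eq, Real.dist_eq, h5, ← mul_sub, abs_mul]
        calc |ρ r| * |k r (a * max (r - x) 0) - k r (a * max (r - y) 0)|
            ≤ C * (M * (a * |x - y|)) := by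
              refine mul_le_mul (hρb r hr') (h1.trans ?_) (abs_nonneg _) hC
              exact mul_le_mul_of_nonneg_left h2 hM0
          _ = C * (M * a) * |x - y| := by ring
      · exact intervalIntegrable_const
      · refine Eventually.of_forall fun r hr => ?_
        have hr' : r ∈ Icc t T := hIoc (le_refl t) htT.le (le_refl T) hr
        have hrt : t < r := by
          rw [uIoc_of_le htT.le] at hr
          exact hr.1
        have h1 : a * max (r - t) 0 = a * (r - t) := by
          rw [max_eq_left (by linarith)]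
        have h2 : 0 < a * (r - t) := mul_pos ha (by linarith)
        have h3 : HasDerivAt (fun τ => a * (r - τ)) (-a) t := by
          have := ((hasDerivAt_id t).const_sub r).const_mul a
          simpa using this
        have h4 : HasDerivAt (fun τ => k r (a * (r - τ))) (kw r (a * (r - t)) * -a) t :=
          (hd r hr' _ h2).comp t h3
        have h5 : HasDerivAt (fun τ => k r (a * max (r - τ) 0)) (kw r (a * (r - t)) * -a) t := by
          refine h4.congr_of_eventuallyEq ?_
          filter_upwards [Iio_mem_nhds hrt] with τ hτ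
          rw [max_eq_left (by linarith [mem_Iio.1 hτ])]
        have h6 := h5.const_mul (ρ r)
        rw [h1]
        convert! h6 using 1
        ring
    convert! h0 using 1
    refine intervalIntegral.integral_congr_ae (Eventually.of_forall fun r hr => ?_)
    rw [uIoc_of_le htT.le] at hr
    rw [max_eq_left (by linarith [hr.1])]
  -- the part `B`
  have hB : HasDerivWithinAt (fun τ => ∫ r in t..τ, ρ r * k r 0) (ρ t * k t 0) (Ici t) t := by
    refine intervalIntegral.integral_hasDerivWithinAt_right (s := Ici t) (t := Ioi t)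
      (by simp) ?_ ?_
    · refine ⟨Icc t T, Icc_mem_nhdsGT htT, ?_⟩
      have h1 : AEStronglyMeasurable (fun r => k r 0) (volume.restrict (Icc t T)) :=
        hk0.aestronglyMeasurable measurableSet_Icc
      exact hρm.aestronglyMeasurable.mul h1
    · refine (hρc.mono Ioi_subset_Ici_self).mul ?_
      have h1 := hk0 t ⟨le_refl _, htT.le⟩
      exact h1.mono_of_mem_nhdsWithin (Icc_mem_nhdsGT htT)
  have hAB := hA.hasDerivWithinAt (s := Ici t) |>.sub hB
  refine (hAB.congr_of_eventuallyEq ?_ ?_).congr_deriv ?_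
  · filter_upwards [Ico_mem_nhdsGE htT] with τ hτ
    have h1 : ∫ r in t..T, ρ r * k r (a * max (r - τ) 0) =
        (∫ r in t..τ, ρ r * k r (a * max (r - τ) 0)) +
          ∫ r in τ..T, ρ r * k r (a * max (r - τ) 0) :=
      (intervalIntegral.integral_add_adjacent_intervals
        (hint (hkc τ) (le_refl t) hτ.1 hτ.2.le) (hint (hkc τ) hτ.1 hτ.2.le (le_refl T))).symm
    have h2 : ∫ r in t..τ, ρ r * k r (a * max (r - τ) 0) = ∫ r in t..τ, ρ r * k r 0 := by
      refine intervalIntegral.integral_congr_ae (Eventually.of_forall fun r hr => ?_)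
      rw [uIoc_of_le hτ.1] at hr
      rw [max_eq_right (by linarith [hr.2]), mul_zero]
    have h3 : ∫ r in τ..T, ρ r * k r (a * max (r - τ) 0) =
        ∫ r in τ..T, ρ r * k r (a * (r - τ)) := by
      refine intervalIntegral.integral_congr_ae (Eventually.of_forall fun r hr => ?_)
      rw [uIoc_of_le hτ.2.le] at hr
      rw [max_eq_left (by linarith [hr.1])]
    simp only [Pi.sub_apply]
    rw [h1, h2, h3]
    ring
  · simp only [Pi.sub_apply]
    rw [intervalIntegral.integral_same, sub_zero]
    refine intervalIntegral.integral_congr_ae (Eventually.of_forall fun r hr => ?_)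
    rw [uIoc_of_le htT.le] at hr
    rw [max_eq_left (by linarith [hr.1])]
  · have h1 : ∫ r in t..T, ρ r * -(a * kw r (a * (r - t))) =
        -(a * ∫ r in t..T, ρ r * kw r (a * (r - t))) := by
      rw [← intervalIntegral.integral_const_mul, ← intervalIntegral.integral_neg]
      congr 1
      funext r
      ring
    rw [h1]
    ring

end Pool.TH862.AT

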